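import Pool.Agent.Helper68.Final

/-!
The halting problem for chip-firing on simple digraphs is NP-hard under polynomial time many-one
reductions.

The reduction goes through systems of incongruences `k ≢ a g (mod b g)` with small moduli: the
tableau of a nondeterministic Turing machine is a constraint satisfaction problem, its variables
are coded by residues modulo distinct small primes, and a gadget digraph (one path for every
incongruence, all sharing a root) has a terminating chip distribution if and only if the system
has a solution `k`.
-/

set_option autoImplicit false

namespace Pool.Agent.Results.MP_85a811_lc.NPHard

open Pool.Agent.Helper68

/-- For every language `L` in NP there is a polynomial time computable map `f` from words to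
instances of the halting problem with `w ∈ L` if and only if `f w` is terminating. Moreover all
digraphs `f w` are strongly connected and all numbers of chips are between `-1` and `3`. -/
theorem result (L : Set (List Bool)) (hL : NP.InNP L) :
    ∃ f : List Bool → Chip.ChipInstance,
      Nonempty (Turing.TM2ComputableInPolyTime (id : List Bool → List Bool)
        Chip.encodeInstance f) ∧
      (∀ w, Chip.StronglyConnected (f w).adj) ∧
      (∀ w v, -1 ≤ (f w).chips v ∧ (f w).chips v ≤ 3) ∧
      ∀ w, w ∈ L ↔ Chip.Terminating (f w).adj (f w).chips :=
  Final.np_hard L hL

end Pool.Agent.Results.MP_85a811_lc.NPHard
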